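import Mathlib

/-!
# MP_c0c476_ag: local volumes along the MMP in codimension two

Let `(X, Δ)` be a projective klt pair of any dimension, `N Δ` integral, with all log discrepancies
at least `ε`, and let `R` be the number of exceptional divisors over `X` of log discrepancy at most
one plus the rank of the group of Weil divisors modulo algebraic equivalence. For every
`(K + Δ)`-nonnegative birational map `X ⇢ X'` and every point `y` of codimension two of `X'` the
normalized volume of `(X', Δ')` at `y` is at least an explicit positive number which depends on `N`,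
`ε` and `R` only; the same is true for the closed points of `X'` outside a closed subset of
codimension at least three. For surfaces this is the positive answer to Q1.

Proof. Let `T` be the terminal model of the germ of `(X', Δ')` at `y`, over the algebraic closure of
the residue field. Its curves `E_i` have log discrepancy at most one over `X'`, hence over `X`, so
they form at most `R` conjugacy classes; `-E_i² ≤ 2/ε` by adjunction; the valencies of the dual tree
are at most `4/ε²` as the form is negative definite; the tree has a stable set of one or two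
vertices, so the number `r` of curves is at most `2 (⌊4/ε²⌋ + 1)^R`. By Cramer's rule `N d e_i` is an
integer, where `d` is the determinant; so the multiplicity of the boundary of `T` at every point is
at most `1 - 1/(N d)`, and the log discrepancies of `(X', Δ')` are at least those of `T` divided by
`N d`. The volume of a divisor over `X'` is computed by its volume over `T` and the inverse matrix.
-/

set_option autoImplicit false

open Matrix

namespace Pool.Agent.Results.MP_c0c476_ag.CodimensionTwo

/-- A klt germ `(S, B)` of dimension two over an algebraically closed field of characteristic zero,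
`N B` integral, with its terminal model `T → S`: `T` is a regular surface and
`K_T + ∑ e_i E_i + B_T` is the pull-back of `K_S + B`, where the `E_i` are the exceptional curves,
`B_T` is the strict transform of `B`, all `e_i ≥ 0`, and `(T, ∑ e_i E_i + B_T)` is terminal. (If
`S` is regular and `(S, B)` is terminal, then `T = S` and there are no curves.) -/
structure Germ (N : ℕ) where
  /-- the exceptional curves `E_i` of `T → S` -/
  Curve : Type
  fin : Fintype Curve
  dec : DecidableEq Curve
  /-- the intersection numbers `E_i . E_j` -/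
  int : Curve → Curve → ℤ
  int_symm : ∀ i j, int i j = int j i
  /-- the intersection form is negative definite -/
  neg_def : ∀ x : Curve → ℝ, x ≠ 0 → ∑ i, ∑ j, x i * int i j * x j < 0
  /-- the dual graph -/
  graph : SimpleGraph Curve
  /-- two curves which meet do so in one point, transversally -/
  adj_one : ∀ i j, graph.Adj i j → int i j = 1
  nonadj : ∀ i j, i ≠ j → ¬ graph.Adj i j → int i j = 0
  /-- the dual graph of a resolution of a klt surface germ is a tree -/
  tree : Nonempty Curve → graph.IsTree
  /-- the degree `K_T . E_i` of the canonical class -/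
  can : Curve → ℤ
  /-- the curves are rational: adjunction -/
  adjunction : ∀ i, can i + int i i = -2
  /-- the coefficient `e_i` -/
  coef : Curve → ℝ
  coef_nonneg : ∀ i, 0 ≤ coef i
  /-- the nonnegative integer `N B_T . E_i` -/
  bdeg : Curve → ℕ
  /-- `(K_T + ∑ e_j E_j + B_T) . E_i = 0` -/
  crepant : ∀ i, (can i : ℝ) + ∑ j, (int i j : ℝ) * coef j + bdeg i / N = 0
  /-- the closed points of `T` over the closed point of `S` -/
  Pt : Type
  /-- the curves through a point -/
  curves : Pt → Finset Curve
  /-- the nonnegative integer `N mult_p B_T` -/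
  bmult : Pt → ℕ
  /-- `(T, ∑ e_i E_i + B_T)` is terminal: its multiplicity at `p` is less than one -/
  terminal : ∀ p, ∑ i ∈ curves p, coef i + bmult p / N < 1
  /-- the prime divisors `v` over `S` whose centre is the closed point -/
  Val : Type
  nonempty : Nonempty Val
  /-- the centre of `v` on `T` -/
  centre : Val → Curve ⊕ Pt
  /-- the log discrepancy of `v` with respect to `(S, B)` -/
  ld : Val → ℝ
  /-- the log discrepancy of `v` with respect to `T` -/
  ldT : Val → ℝ
  ldT_pos : ∀ v, 0 < ldT v
  /-- the order of `∑ e_i E_i + B_T` along `v` -/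
  ordD : Val → ℝ
  ld_eq : ∀ v, ld v = ldT v - ordD v
  /-- the order along a curve is the coefficient -/
  ordD_curve : ∀ v i, centre v = Sum.inl i → ordD v = coef i * ldT v
  /-- the log canonical threshold of an effective divisor at a point of a regular surface is at
  least the inverse of its multiplicity -/
  ordD_point : ∀ v p, centre v = Sum.inr p →
    ordD v ≤ (∑ i ∈ curves p, coef i + bmult p / N) * ldT v
  /-- the order of `E_i` along `v` -/
  ord : Val → Curve → ℝ
  ord_nonneg : ∀ v i, 0 ≤ ord v i
  /-- `(T, ∑ E_i)` is log canonical -/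
  ord_le : ∀ v, ∑ i, ord v i ≤ ldT v
  /-- the volume of `v` over `S` -/
  vol : Val → ℝ
  vol_pos : ∀ v, 0 < vol v
  /-- the inverse of the volume of `v` over the regular surface `T` (zero if `v` is one of the
  curves `E_i`) -/
  invT : Val → ℝ
  /-- the normalized volume of a point of a regular surface is at least four -/
  invT_le : ∀ v, 4 * invT v ≤ ldT v ^ 2
  /-- the self-intersection of the dual divisor of `v` on a resolution of `S` -/
  vol_inv : ∀ v, (vol v)⁻¹ = invT v +
    ∑ i, ∑ j, ord v i * ((Matrix.of fun k l => -(int k l : ℝ))⁻¹) i j * ord v j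

attribute [instance] Germ.fin Germ.dec

/-- The normalized volume of the germ: the infimum of `A(v)² vol(v)` over the prime divisors `v`
over `S` centred at the closed point. -/
noncomputable def Germ.nvol {N : ℕ} (G : Germ N) : ℝ := ⨅ v : G.Val, G.ld v ^ 2 * G.vol v

/-- A projective klt pair `(X, Δ)` of dimension `dim`, its `(K + Δ)`-nonnegative birational maps
`φ : X ⇢ X'` with `Δ' = φ_* Δ`, and the points of codimension two of the varieties `X'` (if
`dim = 2`, these are the closed points). -/
structure KltPair where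
  dim : ℕ
  /-- `N Δ` is integral -/
  N : ℕ
  N_pos : 0 < N
  /-- the prime divisors over `X` -/
  Div : Type
  /-- the prime divisors on `X` -/
  onX : Set Div
  /-- the log discrepancies with respect to `(X, Δ)` -/
  ld : Div → ℝ
  /-- a lower bound of all log discrepancies; it exists because `(X, Δ)` is klt -/
  eps : ℝ
  eps_pos : 0 < eps
  eps_le_one : eps ≤ 1
  eps_le : ∀ D, eps ≤ ld D
  /-- a klt pair has only finitely many exceptional divisors of log discrepancy at most one -/
  low_finite : {D | D ∉ onX ∧ ld D ≤ 1}.Finite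
  /-- the rank of the group of Weil divisors on `X` modulo algebraic equivalence -/
  rho : ℕ
  /-- the `(K + Δ)`-nonnegative birational maps `φ : X ⇢ X'` -/
  Map : Type
  /-- the log discrepancies with respect to `(X', Δ')` -/
  ld' : Map → Div → ℝ
  /-- `φ` is `(K + Δ)`-nonnegative -/
  nonneg : ∀ φ D, ld D ≤ ld' φ D
  /-- the prime divisors over `X'` which are not divisors on `X'` -/
  exc : Map → Set Div
  /-- the prime divisors on `X` contracted by `φ` are linearly independent modulo algebraic
  equivalence -/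
  contracted : ∀ φ, (exc φ ∩ onX).Finite ∧ (exc φ ∩ onX).ncard ≤ rho
  /-- the points of codimension two of `X'` -/
  Point : Map → Type
  /-- the local ring of `X'` at the point, over the algebraic closure of the residue field -/
  germ : (φ : Map) → Point φ → Germ N
  /-- the divisor over `X'` of which a curve on the terminal model of the germ is a geometric
  component -/
  toDiv : (φ : Map) → (y : Point φ) → (germ φ y).Curve → Div
  toDiv_exc : ∀ φ y i, toDiv φ y i ∈ exc φ
  toDiv_ld : ∀ φ y i, ld' φ (toDiv φ y i) = 1 - (germ φ y).coef i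
  /-- the geometric components of one divisor are conjugate -/
  conj : ∀ φ y i j, toDiv φ y i = toDiv φ y j →
    ∃ f : (germ φ y).graph ≃g (germ φ y).graph, f i = j
  /-- the closed points of a surface over `ℂ` have an algebraically closed residue field -/
  surface : dim = 2 → ∀ φ y, Function.Injective (toDiv φ y)
  /-- the normalized volume of `(X', Δ')` at a point of codimension two -/
  lvol : (φ : Map) → Point φ → ℝ
  /-- `lvol` is the infimum of `lct² e` over the primary ideals of the local ring; these ideals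
  extend to the germ with the same `lct` and `e` -/
  nvol_le : ∀ φ y, (germ φ y).nvol ≤ lvol φ y
  /-- the closed points of `X'` outside a closed subset of codimension at least three (the closure
  of the union of the strata of codimension at least three, for a finite stratification of `X'` with
  constant normalized volume on the strata) -/
  GenPoint : Map → Type
  /-- the normalized volume of `(X', Δ')` at these closed points -/
  gvol : (φ : Map) → GenPoint φ → ℝ
  /-- a general closed point `x` of the closure of a point `y` of codimension two: near `x` the pair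
  is a family of surface pairs, and degenerates to the product of the fibre through `x` with an
  affine space; semicontinuity and constructibility of the normalized volume, product formula -/
  gvol_ge : ∀ φ x, ∃ y, (dim : ℝ) ^ dim / 4 * (germ φ y).nvol ≤ gvol φ x

/-- The constant. -/
noncomputable def bound (N : ℕ) (ε : ℝ) (r : ℕ) : ℝ :=
  4 / 5 * ((N : ℝ) ^ 2)⁻¹ * (((r.factorial : ℝ)) ^ 2)⁻¹ * (ε / 2) ^ (2 * r)

/-- The number of the divisors over `X` of log discrepancy at most one which are not divisors on
`X`, plus the rank of the group of Weil divisors modulo algebraic equivalence. -/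
noncomputable def KltPair.R (P : KltPair) : ℕ := {D | D ∉ P.onX ∧ P.ld D ≤ 1}.ncard + P.rho

section tree

open SimpleGraph

lemma two_le_degree_of_mem_path {V : Type} [Fintype V] (G : SimpleGraph V) [DecidableRel G.Adj]
    {u v : V} (p : G.Walk u v) : p.IsPath → 2 ≤ G.degree u → 2 ≤ G.degree v →
      ∀ x ∈ p.support, 2 ≤ G.degree x := by
  classical
  induction p with
  | nil =>
    intro _ hu _ x hx
    simp only [Walk.support_nil, List.mem_singleton] at hx
    subst hx
    exact hu
  | @cons a b c h q ih =>
    intro hp hu hv x hx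
    rw [Walk.cons_isPath_iff] at hp
    have hb : 2 ≤ G.degree b := by
      cases q with
      | nil => exact hv
      | @cons _ d _ h' q' =>
        have hne : a ≠ d := by
          rintro rfl
          exact hp.2 (by simp)
        have hsub : ({a, d} : Finset V) ⊆ G.neighborFinset b := by
          intro y hy
          rw [Finset.mem_insert, Finset.mem_singleton] at hy
          rw [mem_neighborFinset]
          rcases hy with rfl | rfl
          · exact h.symm
          · exact h'
        calc 2 = ({a, d} : Finset V).card := (Finset.card_pair hne).symm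
          _ ≤ (G.neighborFinset b).card := Finset.card_le_card hsub
          _ = G.degree b := G.card_neighborFinset_eq_degree b
    rw [Walk.support_cons, List.mem_cons] at hx
    rcases hx with rfl | hx
    · exact hu
    · exact ih hp.1 hb hv x hx

theorem small_orbit_aux (n : ℕ) : ∀ {V : Type} [Fintype V] [Nonempty V] (G : SimpleGraph V),
    G.IsTree → Fintype.card V ≤ n →
    ∃ O : Finset V, O.Nonempty ∧ O.card ≤ 2 ∧ ∀ f : G ≃g G, ∀ v ∈ O, f v ∈ O := by
  classical
  induction n with
  | zero =>
    intro V _ _ G _ h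
    exact absurd (Fintype.card_pos (α := V)) (by omega)
  | succ n ih =>
    intro V _ _ G hG h
    by_cases h2 : Fintype.card V ≤ 2
    · exact ⟨Finset.univ, Finset.univ_nonempty, by simpa using h2, fun f v _ => Finset.mem_univ _⟩
    push Not at h2
    have hedge := hG.card_edgeFinset
    have hsum := G.sum_degrees_eq_twice_card_edges
    have hex : ∃ v : V, 2 ≤ G.degree v := by
      by_contra hcon
      push Not at hcon
      have h1 : ∑ v : V, G.degree v ≤ ∑ _v : V, 1 :=
        Finset.sum_le_sum (fun v _ => by have := hcon v; omega)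
      simp only [Finset.sum_const, Finset.card_univ, smul_eq_mul, mul_one] at h1
      omega
    have hnt : Nontrivial V := Fintype.one_lt_card_iff_nontrivial.mp (by omega)
    obtain ⟨l, hl⟩ := hG.exists_vert_degree_one_of_nontrivial
    let S : Set V := {v | 2 ≤ G.degree v}
    have hSne : Nonempty S := by
      obtain ⟨v, hv⟩ := hex
      exact ⟨⟨v, hv⟩⟩
    have hpre : (G.induce S).Preconnected := by
      rintro ⟨u, hu⟩ ⟨v, hv⟩
      obtain ⟨p, hp⟩ := hG.1.exists_isPath u v
      have hsup : ∀ x ∈ p.support, x ∈ S := two_le_degree_of_mem_path G p hp hu hv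
      exact ⟨p.induce S hsup⟩
    have hT : (G.induce S).IsTree := ⟨⟨hpre⟩, hG.2.induce S⟩
    have hcard : Fintype.card S < Fintype.card V := by
      have := Fintype.card_subtype_lt (p := fun v : V => v ∈ S) (x := l) (by
        show ¬ (2 ≤ G.degree l)
        omega)
      exact this
    obtain ⟨O, hO1, hO2, hO3⟩ := ih (G.induce S) hT (by omega)
    refine ⟨O.map ⟨Subtype.val, Subtype.val_injective⟩, by simpa using hO1, by simpa using hO2, ?_⟩
    intro f v hv
    rw [Finset.mem_map] at hv
    obtain ⟨w, hw, rfl⟩ := hv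
    have hdeg : ∀ x : V, G.degree (f x) = G.degree x := fun x => f.degree_eq x
    have hmem : ∀ a : V, a ∈ S ↔ f.toEquiv a ∈ S := by
      intro a
      show 2 ≤ G.degree a ↔ 2 ≤ G.degree (f a)
      rw [hdeg]
    let g : G.induce S ≃g G.induce S :=
      { toEquiv := f.toEquiv.subtypeEquiv hmem
        map_rel_iff' := by
          rintro ⟨a, ha⟩ ⟨b, hb⟩
          show G.Adj (f a) (f b) ↔ G.Adj a b
          exact f.map_adj_iff }
    have hg := hO3 g w hw
    rw [Finset.mem_map]
    exact ⟨g w, hg, rfl⟩

/-- In a finite tree there is a set of one or two vertices which is stable under all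
automorphisms. -/
theorem small_orbit {V : Type} [Fintype V] [Nonempty V] (G : SimpleGraph V) (hG : G.IsTree) :
    ∃ O : Finset V, O.Nonempty ∧ O.card ≤ 2 ∧ ∀ f : G ≃g G, ∀ v ∈ O, f v ∈ O :=
  small_orbit_aux _ G hG le_rfl

end tree

/-- Counting the vertices of a connected graph with few orbits, small valency and a small stable
set. -/
theorem card_le_of_orbits {V D : Type} [Fintype V] (G : SimpleGraph V) (hc : G.Connected)
    (O : Finset V) (hO : O.Nonempty) (hO2 : O.card ≤ 2)
    (hst : ∀ f : G ≃g G, ∀ v ∈ O, f v ∈ O) (π : V → D)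
    (hπ : ∀ v w, π v = π w → ∃ f : G ≃g G, f v = w) (S : Set D) (hS : S.Finite)
    (hSπ : ∀ v, π v ∈ S) (K : ℕ) (hK : ∀ v, (G.neighborSet v).ncard ≤ K) :
    Fintype.card V ≤ 2 * (K + 1) ^ S.ncard := by
  classical
  -- the balls around `O`
  let step : Finset V → Finset V := fun B => B ∪ B.biUnion (fun v => G.neighborFinset v)
  let B : ℕ → Finset V := fun k => step^[k] O
  have hB0 : B 0 = O := rfl
  have hBs : ∀ k, B (k + 1) = step (B k) := fun k => Function.iterate_succ_apply' step k O
  have hdeg : ∀ v, (G.neighborFinset v).card ≤ K := by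
    intro v
    have h := hK v
    rwa [← SimpleGraph.coe_neighborFinset, Set.ncard_coe_finset] at h
  have hcard : ∀ k, (B k).card ≤ 2 * (K + 1) ^ k := by
    intro k
    induction k with
    | zero => simpa [hB0] using hO2
    | succ k ih =>
      rw [hBs]
      have h1 : (step (B k)).card ≤ (B k).card + (B k).card * K := by
        refine (Finset.card_union_le _ _).trans ?_
        have := Finset.card_biUnion_le_card_mul (B k) (fun v => G.neighborFinset v) K
          (fun v _ => hdeg v)
        omega
      calc (step (B k)).card ≤ (B k).card + (B k).card * K := h1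
        _ = (B k).card * (K + 1) := by ring
        _ ≤ (2 * (K + 1) ^ k) * (K + 1) := Nat.mul_le_mul_right _ ih
        _ = 2 * (K + 1) ^ (k + 1) := by ring
  have hinv : ∀ k, ∀ f : G ≃g G, ∀ v ∈ B k, f v ∈ B k := by
    intro k
    induction k with
    | zero => simpa [hB0] using hst
    | succ k ih =>
      intro f v hv
      rw [hBs] at hv ⊢
      rcases Finset.mem_union.mp hv with h | h
      · exact Finset.mem_union_left _ (ih f v h)
      · obtain ⟨w, hw, hvw⟩ := Finset.mem_biUnion.mp h
        refine Finset.mem_union_right _ (Finset.mem_biUnion.mpr ⟨f w, ih f w hw, ?_⟩)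
        rw [SimpleGraph.mem_neighborFinset] at hvw ⊢
        exact f.map_adj_iff.mpr hvw
  have hmono : ∀ k, B k ⊆ B (k + 1) := fun k => by
    rw [hBs]; exact Finset.subset_union_left
  have hnon : ∀ k, (B k).Nonempty := by
    intro k
    induction k with
    | zero => exact hO
    | succ k ih => exact ih.mono (hmono k)
  -- a ball which is not everything grows
  have hgrow : ∀ k, B k ≠ Finset.univ → ∃ v ∈ B (k + 1), v ∉ B k := by
    intro k hk
    by_contra hcon
    push Not at hcon
    apply hk
    have hcl : ∀ v w, v ∈ B k → G.Adj v w → w ∈ B k := by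
      intro v w hv hvw
      refine hcon w ?_
      rw [hBs]
      refine Finset.mem_union_right _ (Finset.mem_biUnion.mpr ⟨v, hv, ?_⟩)
      rwa [SimpleGraph.mem_neighborFinset]
    obtain ⟨v₀, hv₀⟩ := hnon k
    refine Finset.eq_univ_iff_forall.mpr fun w => ?_
    obtain ⟨p⟩ := hc.preconnected v₀ w
    induction p with
    | nil => exact hv₀
    | cons h _ ih => exact ih (hcl _ _ hv₀ h)
  have himg : ∀ k, B k = Finset.univ ∨ k + 1 ≤ ((B k).image π).card := by
    intro k
    induction k with
    | zero =>
      right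
      exact Finset.card_pos.mpr (Finset.Nonempty.image (hnon 0) π)
    | succ k ih =>
      by_cases hk : B k = Finset.univ
      · left
        exact Finset.eq_univ_iff_forall.mpr fun w => hmono k (hk ▸ Finset.mem_univ w)
      · right
        have h1 := ih.resolve_left hk
        obtain ⟨v, hv1, hv2⟩ := hgrow k hk
        have h2 : π v ∉ (B k).image π := by
          intro h
          obtain ⟨w, hw, hwv⟩ := Finset.mem_image.mp h
          obtain ⟨f, hf⟩ := hπ w v hwv
          exact hv2 (hf ▸ hinv k f w hw)
        have h3 : insert (π v) ((B k).image π) ⊆ (B (k + 1)).image π := by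
          refine Finset.insert_subset (Finset.mem_image_of_mem π hv1) ?_
          exact Finset.image_subset_image (hmono k)
        have h4 := Finset.card_le_card h3
        rw [Finset.card_insert_of_notMem h2] at h4
        omega
  have hall : B S.ncard = Finset.univ := by
    rcases himg S.ncard with h | h
    · exact h
    · exfalso
      have h1 : (((B S.ncard).image π : Finset D) : Set D) ⊆ S := by
        intro d hd
        obtain ⟨v, _, rfl⟩ := Finset.mem_image.mp (Finset.mem_coe.mp hd)
        exact hSπ v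
      have h2 := Set.ncard_le_ncard h1 hS
      rw [Set.ncard_coe_finset] at h2
      omega
  have h := hcard S.ncard
  rw [hall, Finset.card_univ] at h
  exact h

section matrix

variable {ι : Type} [Fintype ι] [DecidableEq ι]

/-- `P` over the reals. -/
noncomputable def realM (P : Matrix ι ι ℤ) : Matrix ι ι ℝ := P.map (fun z : ℤ => (z : ℝ))

theorem realM_det (P : Matrix ι ι ℤ) : (realM P).det = ((P.det : ℤ) : ℝ) := by
  have h := (Int.castRingHom ℝ).map_det P
  simpa [realM, RingHom.mapMatrix_apply] using h.symm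

theorem realM_adj (P : Matrix ι ι ℤ) (i j : ι) :
    (realM P).adjugate i j = ((P.adjugate i j : ℤ) : ℝ) := by
  have h := (Int.castRingHom ℝ).map_adjugate P
  have h2 := congrFun (congrFun h i) j
  simpa [realM, RingHom.mapMatrix_apply] using h2.symm

theorem det_pos_of (P : Matrix ι ι ℤ) (hs : ∀ i j, P i j = P j i)
    (hp : ∀ x : ι → ℝ, x ≠ 0 → 0 < ∑ i, ∑ j, x i * P i j * x j) : 1 ≤ P.det := by
  have hpd : (realM P).PosDef := by
    refine Matrix.PosDef.of_dotProduct_mulVec_pos ?_ ?_
    · ext i j
      simp [realM, hs i j]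
    · intro x hx
      have h := hp x hx
      have e : star x ⬝ᵥ (realM P) *ᵥ x = ∑ i, ∑ j, x i * P i j * x j := by
        simp only [dotProduct, mulVec, realM, Matrix.map_apply, Pi.star_apply, star_trivial,
          Finset.mul_sum]
        refine Finset.sum_congr rfl fun i _ => Finset.sum_congr rfl fun j _ => by ring
      rw [e]
      exact h
  have h := hpd.det_pos
  rw [realM_det] at h
  have h2 : (0 : ℤ) < P.det := by exact_mod_cast h
  omega

theorem abs_det_le (P : Matrix ι ι ℝ) (a : ℝ) (ha : ∀ i j, |P i j| ≤ a) :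
    |P.det| ≤ (Fintype.card ι).factorial * a ^ Fintype.card ι := by
  have h := Matrix.det_le (abv := AbsoluteValue.abs) (A := P) (x := a) (fun i j => ha i j)
  simpa [nsmul_eq_mul] using h

theorem abs_adj_le (P : Matrix ι ι ℝ) (a : ℝ) (ha1 : 1 ≤ a) (ha : ∀ i j, |P i j| ≤ a) (i j : ι) :
    |P.adjugate i j| ≤ (Fintype.card ι).factorial * a ^ Fintype.card ι := by
  rw [Matrix.adjugate_apply]
  refine abs_det_le _ a ?_
  intro k l
  rw [Matrix.updateRow_apply]
  split_ifs
  · rw [Pi.single_apply]
    split_ifs
    · simpa using ha1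
    · rw [abs_zero]; linarith
  · exact ha k l

/-- Cramer's rule with integers. -/
theorem cramer_int (P : Matrix ι ι ℤ) (N : ℕ) (e : ι → ℝ) (c : ι → ℤ)
    (h : ∀ i, N * ∑ j, (P i j : ℝ) * e j = c i) (i : ι) : ∃ z : ℤ, (N : ℝ) * P.det * e i = z := by
  have h1 : (realM P) *ᵥ (fun j => (N : ℝ) * e j) = fun i => (c i : ℝ) := by
    funext i
    rw [← h i]
    simp only [mulVec, dotProduct, realM, Matrix.map_apply, Finset.mul_sum]
    refine Finset.sum_congr rfl fun j _ => by ring
  have h2 : (realM P).adjugate *ᵥ ((realM P) *ᵥ (fun j => (N : ℝ) * e j)) =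
      (realM P).det • (fun j => (N : ℝ) * e j) := by
    rw [mulVec_mulVec, adjugate_mul, smul_mulVec, one_mulVec]
  rw [h1] at h2
  have h3 := congrFun h2 i
  refine ⟨∑ j, P.adjugate i j * c j, ?_⟩
  simp only [mulVec, dotProduct, realM_adj, realM_det, Pi.smul_apply, smul_eq_mul] at h3
  simp only [Int.cast_sum, Int.cast_mul]
  rw [h3]
  ring

/-- The quadratic form of the inverse matrix. -/
theorem quad_inv_le (P : Matrix ι ι ℤ) (a : ℝ) (ha1 : 1 ≤ a) (ha : ∀ i j, |(P i j : ℝ)| ≤ a)
    (hd : 1 ≤ P.det) (w : ι → ℝ) (hw : ∀ i, 0 ≤ w i) (A : ℝ) (hA : ∑ i, w i ≤ A) :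
    (P.det : ℝ) * ∑ i, ∑ j, w i * ((realM P)⁻¹) i j * w j ≤
      (Fintype.card ι).factorial * a ^ Fintype.card ι * A ^ 2 := by
  have hd' : (0 : ℝ) < P.det := by
    have : (1 : ℝ) ≤ P.det := by exact_mod_cast hd
    linarith
  set F : ℝ := (Fintype.card ι).factorial * a ^ Fintype.card ι with hF
  have hinv : ∀ i j, (P.det : ℝ) * ((realM P)⁻¹) i j = (realM P).adjugate i j := by
    intro i j
    rw [Matrix.inv_def, realM_det, Matrix.smul_apply, smul_eq_mul, Ring.inverse_eq_inv',
      ← mul_assoc, mul_inv_cancel₀ hd'.ne', one_mul]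
  have hS : 0 ≤ ∑ i, w i := Finset.sum_nonneg fun i _ => hw i
  have hFn : 0 ≤ F := by
    have : 0 ≤ a := by linarith
    positivity
  calc (P.det : ℝ) * ∑ i, ∑ j, w i * ((realM P)⁻¹) i j * w j
      = ∑ i, ∑ j, w i * (realM P).adjugate i j * w j := by
        rw [Finset.mul_sum]
        refine Finset.sum_congr rfl fun i _ => ?_
        rw [Finset.mul_sum]
        refine Finset.sum_congr rfl fun j _ => ?_
        rw [← hinv i j]; ring
    _ ≤ ∑ i, ∑ j, w i * F * w j := by
        refine Finset.sum_le_sum fun i _ => Finset.sum_le_sum fun j _ => ?_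
        have h1 : (realM P).adjugate i j ≤ F :=
          (le_abs_self _).trans (abs_adj_le (realM P) a ha1 (fun k l => by simpa [realM] using ha k l) i j)
        have h2 := mul_le_mul_of_nonneg_left h1 (hw i)
        exact mul_le_mul_of_nonneg_right h2 (hw j)
    _ = F * (∑ i, w i) ^ 2 := by
        rw [sq, Finset.sum_mul_sum, Finset.mul_sum]
        refine Finset.sum_congr rfl fun i _ => ?_
        rw [Finset.mul_sum]
        refine Finset.sum_congr rfl fun j _ => by ring
    _ ≤ F * A ^ 2 := by
        refine mul_le_mul_of_nonneg_left ?_ hFn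
        exact pow_le_pow_left₀ hS hA 2

end matrix

theorem bound_pos (N : ℕ) (hN : 0 < N) (ε : ℝ) (hε : 0 < ε) (r : ℕ) : 0 < bound N ε r := by
  unfold bound
  have h1 : (0 : ℝ) < N := by exact_mod_cast hN
  have h2 : (0 : ℝ) < (r.factorial : ℝ) := by exact_mod_cast r.factorial_pos
  positivity

theorem bound_anti (N : ℕ) (ε : ℝ) (hε : 0 < ε) (hε1 : ε ≤ 1) {r s : ℕ} (h : r ≤ s) :
    bound N ε s ≤ bound N ε r := by
  unfold bound
  have h2 : (0 : ℝ) < (r.factorial : ℝ) := by exact_mod_cast r.factorial_pos
  have h3 : (r.factorial : ℝ) ≤ (s.factorial : ℝ) := by exact_mod_cast Nat.factorial_le h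
  have h4 : (((s.factorial : ℝ)) ^ 2)⁻¹ ≤ (((r.factorial : ℝ)) ^ 2)⁻¹ :=
    inv_anti₀ (by positivity) (pow_le_pow_left₀ h2.le h3 2)
  have h5 : (ε / 2) ^ (2 * s) ≤ (ε / 2) ^ (2 * r) :=
    pow_le_pow_of_le_one (by positivity) (by linarith) (by omega)
  have h6 : (0 : ℝ) ≤ 4 / 5 * ((N : ℝ) ^ 2)⁻¹ := by positivity
  calc 4 / 5 * ((N : ℝ) ^ 2)⁻¹ * (((s.factorial : ℝ)) ^ 2)⁻¹ * (ε / 2) ^ (2 * s)
      ≤ 4 / 5 * ((N : ℝ) ^ 2)⁻¹ * (((r.factorial : ℝ)) ^ 2)⁻¹ * (ε / 2) ^ (2 * s) := by
        refine mul_le_mul_of_nonneg_right (mul_le_mul_of_nonneg_left h4 h6) (by positivity)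
    _ ≤ 4 / 5 * ((N : ℝ) ^ 2)⁻¹ * (((r.factorial : ℝ)) ^ 2)⁻¹ * (ε / 2) ^ (2 * r) :=
        mul_le_mul_of_nonneg_left h5 (by positivity)

section germ

variable {N : ℕ} (G : Germ N) {ε : ℝ}

theorem int_diag_neg (i : G.Curve) : (G.int i i : ℝ) < 0 := by
  have h := G.neg_def (Pi.single i 1) (by
    intro h
    have := congrFun h i
    simp at this)
  simpa [Pi.single_apply] using h

theorem int_off_nonneg (i j : G.Curve) (h : i ≠ j) : 0 ≤ G.int i j ∧ G.int i j ≤ 1 := by
  by_cases ha : G.graph.Adj i j
  · rw [G.adj_one i j ha]; omega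
  · rw [G.nonadj i j h ha]; omega

theorem diag_le (hε : 0 < ε) (hc : ∀ i, ε ≤ 1 - G.coef i) (i : G.Curve) :
    -(G.int i i : ℝ) ≤ 2 / ε := by
  have h1 := G.crepant i
  have h2 : (G.can i : ℝ) + G.int i i = -2 := by exact_mod_cast G.adjunction i
  have h3 : (G.int i i : ℝ) * G.coef i ≤ ∑ j, (G.int i j : ℝ) * G.coef j := by
    rw [← Finset.add_sum_erase Finset.univ _ (Finset.mem_univ i)]
    have : 0 ≤ ∑ j ∈ Finset.univ.erase i, (G.int i j : ℝ) * G.coef j := by
      refine Finset.sum_nonneg fun j hj => mul_nonneg ?_ (G.coef_nonneg j)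
      exact_mod_cast (int_off_nonneg G i j (Finset.ne_of_mem_erase hj).symm).1
    linarith
  have h4 : (0 : ℝ) ≤ G.bdeg i / N := by positivity
  have h5 := int_diag_neg G i
  have h6 := hc i
  rw [le_div_iff₀ hε]
  nlinarith

theorem abs_int_le (hε : 0 < ε) (hε1 : ε ≤ 1) (hc : ∀ i, ε ≤ 1 - G.coef i) (i j : G.Curve) :
    |(G.int i j : ℝ)| ≤ 2 / ε := by
  have h2 : (2 : ℝ) ≤ 2 / ε := by
    rw [le_div_iff₀ hε]; linarith
  by_cases h : i = j
  · subst h
    rw [abs_of_neg (int_diag_neg G i)]
    exact diag_le G hε hc i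
  · obtain ⟨h3, h4⟩ := int_off_nonneg G i j h
    have h3' : (0 : ℝ) ≤ G.int i j := by exact_mod_cast h3
    have h4' : (G.int i j : ℝ) ≤ 1 := by exact_mod_cast h4
    rw [abs_of_nonneg h3']
    linarith

/-- The valency is at most `4 / ε²`. -/
theorem valency_le (hε : 0 < ε) (hε1 : ε ≤ 1) (hc : ∀ i, ε ≤ 1 - G.coef i) (i : G.Curve) :
    (G.graph.neighborSet i).ncard ≤ ⌊4 / ε ^ 2⌋₊ := by
  classical
  set S : Finset G.Curve := Finset.univ.filter (fun j => G.graph.Adj i j) with hS
  have hcard : (G.graph.neighborSet i).ncard = S.card := by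
    rw [← Set.ncard_coe_finset]
    congr 1
    ext j
    simp [hS]
  rw [hcard]
  have hiS : i ∉ S := by simp [hS]
  set t : ℝ := ε / 2 with ht
  have htp : 0 < t := by positivity
  set x : G.Curve → ℝ := fun j => if j = i then 1 else if j ∈ S then t else 0 with hx
  have hxi : x i = 1 := by simp [hx]
  have hxS : ∀ j ∈ S, x j = t := by
    intro j hj
    have : j ≠ i := fun h => hiS (h ▸ hj)
    simp [hx, this, hj]
  have hx0 : ∀ j, j ≠ i → j ∉ S → x j = 0 := by
    intro j h1 h2
    simp [hx, h1, h2]
  have hxnn : ∀ j, 0 ≤ x j := by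
    intro j
    simp only [hx]
    split_ifs <;> linarith
  have hneg := G.neg_def x (by
    intro h
    have := congrFun h i
    rw [hxi] at this
    simp at this)
  -- lower bounds of the rows
  have hrow_i : (G.int i i : ℝ) + S.card * t ≤ ∑ j, x i * G.int i j * x j := by
    have h1 : ∑ j ∈ insert i S, x i * G.int i j * x j ≤ ∑ j, x i * G.int i j * x j := by
      refine Finset.sum_le_sum_of_subset_of_nonneg (Finset.subset_univ _) ?_
      intro j _ hj
      have hji : j ≠ i := fun h => hj (h ▸ Finset.mem_insert_self _ _)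
      have h2 : (0 : ℝ) ≤ G.int i j := by exact_mod_cast (int_off_nonneg G i j hji.symm).1
      exact mul_nonneg (mul_nonneg (hxnn i) h2) (hxnn j)
    rw [Finset.sum_insert hiS] at h1
    have h3 : ∑ j ∈ S, x i * G.int i j * x j = S.card * t := by
      rw [Finset.sum_congr rfl (g := fun _ => t) (fun j hj => by
        have ha : G.graph.Adj i j := by simpa [hS] using hj
        rw [hxi, hxS j hj, G.adj_one i j ha]
        push_cast
        ring)]
      simp
    rw [h3] at h1
    have h4 : x i * (G.int i i : ℝ) * x i = G.int i i := by rw [hxi]; ring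
    linarith
  have hrow_j : ∀ j ∈ S, t + t ^ 2 * (G.int j j : ℝ) ≤ ∑ k, x j * G.int j k * x k := by
    intro j hj
    have hji : j ≠ i := fun h => hiS (h ▸ hj)
    have h1 : ∑ k ∈ {i, j}, x j * G.int j k * x k ≤ ∑ k, x j * G.int j k * x k := by
      refine Finset.sum_le_sum_of_subset_of_nonneg (Finset.subset_univ _) ?_
      intro k _ hk
      have hkj : k ≠ j := fun h => hk (by simp [h])
      have h2 : (0 : ℝ) ≤ G.int j k := by exact_mod_cast (int_off_nonneg G j k hkj.symm).1
      exact mul_nonneg (mul_nonneg (hxnn j) h2) (hxnn k)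
    rw [Finset.sum_pair hji.symm] at h1
    have ha : G.graph.Adj i j := by simpa [hS] using hj
    have h3 : G.int j i = 1 := by rw [G.int_symm]; exact G.adj_one i j ha
    have h4 : x j * ((G.int j i : ℤ) : ℝ) * x i = t := by
      rw [h3, hxS j hj, hxi]; push_cast; ring
    have h5 : x j * ((G.int j j : ℤ) : ℝ) * x j = t ^ 2 * (G.int j j : ℝ) := by
      rw [hxS j hj]; ring
    linarith
  have hrow_0 : ∀ j, j ≠ i → j ∉ S → ∑ k, x j * G.int j k * x k = 0 := by
    intro j h1 h2
    refine Finset.sum_eq_zero fun k _ => ?_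
    rw [hx0 j h1 h2]
    ring
  have htot : (G.int i i : ℝ) + S.card * t + ∑ j ∈ S, (t + t ^ 2 * (G.int j j : ℝ)) ≤
      ∑ j, ∑ k, x j * G.int j k * x k := by
    have h1 : ∑ j, ∑ k, x j * G.int j k * x k = ∑ j ∈ insert i S, ∑ k, x j * G.int j k * x k := by
      symm
      refine Finset.sum_subset (Finset.subset_univ _) ?_
      intro j _ hj
      exact hrow_0 j (fun h => hj (h ▸ Finset.mem_insert_self _ _))
        (fun h => hj (Finset.mem_insert_of_mem h))
    rw [h1, Finset.sum_insert hiS]
    exact add_le_add hrow_i (Finset.sum_le_sum hrow_j)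
  have hdi := diag_le G hε hc i
  have hdj : ∀ j ∈ S, t / 2 * 0 + (t - t ^ 2 * (2 / ε)) ≤ t + t ^ 2 * (G.int j j : ℝ) := by
    intro j _
    have := diag_le G hε hc j
    nlinarith [sq_nonneg t]
  have hsum := Finset.sum_le_sum hdj
  have e1 : t / 2 * 0 + (t - t ^ 2 * (2 / ε)) = 0 := by
    rw [ht]; field_simp; ring
  rw [e1] at hsum
  simp only [Finset.sum_const_zero] at hsum
  have hfin : (S.card : ℝ) * t < 2 / ε := by linarith
  refine Nat.le_floor ?_
  rw [ht] at hfin
  rw [lt_div_iff₀ hε] at hfin
  rw [le_div_iff₀ (by positivity)]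
  nlinarith

/-- The bound for the normalized volume of a germ. -/
theorem germ_bound (hN : 0 < N) (hε : 0 < ε) (hε1 : ε ≤ 1) (hc : ∀ i, ε ≤ 1 - G.coef i) :
    bound N ε (Fintype.card G.Curve) ≤ G.nvol := by
  classical
  have hN' : (0 : ℝ) < N := by exact_mod_cast hN
  set P : Matrix G.Curve G.Curve ℤ := Matrix.of fun k l => -G.int k l with hP
  have hPr : (Matrix.of fun k l => -(G.int k l : ℝ)) = realM P := by
    ext k l
    simp [realM, hP]
  set a : ℝ := 2 / ε with ha
  have ha1 : 1 ≤ a := by
    rw [ha, le_div_iff₀ hε]; linarith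
  have habs : ∀ i j, |(P i j : ℝ)| ≤ a := by
    intro i j
    have := abs_int_le G hε hε1 hc i j
    simpa [hP] using this
  have hd : 1 ≤ P.det := by
    refine det_pos_of P (fun i j => by simp [hP, G.int_symm i j]) ?_
    intro x hx
    have h := G.neg_def x hx
    have e : ∑ i, ∑ j, x i * P i j * x j = -∑ i, ∑ j, x i * G.int i j * x j := by
      simp only [hP, Matrix.of_apply, Int.cast_neg, ← Finset.sum_neg_distrib]
      refine Finset.sum_congr rfl fun i _ => Finset.sum_congr rfl fun j _ => by ring
    rw [e]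
    linarith
  have hd' : (1 : ℝ) ≤ P.det := by exact_mod_cast hd
  set d : ℝ := (P.det : ℝ) with hdd
  set F : ℝ := (Fintype.card G.Curve).factorial * a ^ Fintype.card G.Curve with hF
  have hdF : d ≤ F := by
    have h := abs_det_le (realM P) a (fun i j => by simpa [realM] using habs i j)
    rw [realM_det] at h
    exact (le_abs_self _).trans h
  have hcr : ∀ i, ∃ z : ℤ, (N : ℝ) * d * G.coef i = z := by
    refine cramer_int P N G.coef (fun i => N * G.can i + G.bdeg i) ?_
    intro i
    have h1 := G.crepant i
    have e : ∑ j, (P i j : ℝ) * G.coef j = -∑ j, (G.int i j : ℝ) * G.coef j := by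
      simp only [hP, Matrix.of_apply, Int.cast_neg, ← Finset.sum_neg_distrib]
      refine Finset.sum_congr rfl fun j _ => by ring
    have e2 : ∑ j, (P i j : ℝ) * G.coef j = G.can i + G.bdeg i / N := by
      rw [e]; linarith
    rw [e2]
    push_cast
    field_simp
  -- integers below `N d`
  have hgap : ∀ m : ℝ, m < 1 → (∃ z : ℤ, (N : ℝ) * d * m = z) → (N * d)⁻¹ ≤ 1 - m := by
    rintro m hm ⟨z, hz⟩
    have hNd : 0 < (N : ℝ) * d := by nlinarith
    have h1 : (z : ℝ) < N * d := by
      rw [← hz]; nlinarith
    have e0 : (((N : ℤ) * P.det : ℤ) : ℝ) = N * d := by rw [Int.cast_mul, Int.cast_natCast]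
    have h3 : z < (N : ℤ) * P.det := by
      rw [← e0] at h1
      exact Int.cast_lt.mp h1
    have h4 : (z : ℝ) + 1 ≤ N * d := by
      have h6 : z + 1 ≤ (N : ℤ) * P.det := h3
      have h5 : ((z + 1 : ℤ) : ℝ) ≤ (((N : ℤ) * P.det : ℤ) : ℝ) := Int.cast_le.mpr h6
      rw [e0, Int.cast_add, Int.cast_one] at h5
      exact h5
    rw [inv_le_iff_one_le_mul₀ hNd]
    nlinarith
  have hld : ∀ v, (N * d)⁻¹ * G.ldT v ≤ G.ld v := by
    intro v
    have hT := G.ldT_pos v
    rw [G.ld_eq v]
    rcases hcv : G.centre v with i | p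
    · rw [G.ordD_curve v i hcv]
      have h1 := hgap (G.coef i) (by linarith [hc i]) (hcr i)
      nlinarith
    · have h1 := G.ordD_point v p hcv
      have h2 := hgap (∑ i ∈ G.curves p, G.coef i + G.bmult p / N) (G.terminal p) (by
        choose z hz using hcr
        refine ⟨∑ i ∈ G.curves p, z i + P.det * G.bmult p, ?_⟩
        rw [Int.cast_add, Int.cast_sum, Int.cast_mul, Int.cast_natCast,
          ← Finset.sum_congr rfl (fun i _ => hz i), ← Finset.mul_sum, ← hdd]
        field_simp)
      nlinarith
  have hNd : 0 < (N : ℝ) * d := by nlinarith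
  have hFpos : 0 < F := by linarith
  unfold Germ.nvol
  have := G.nonempty
  refine le_ciInf fun v => ?_
  have hT := G.ldT_pos v
  have hv := G.vol_pos v
  have hinv : (G.vol v)⁻¹ ≤ (1 / 4 + F / d) * G.ldT v ^ 2 := by
    rw [G.vol_inv v, hPr]
    have h1 := quad_inv_le P a ha1 habs hd (G.ord v) (G.ord_nonneg v) (G.ldT v) (G.ord_le v)
    have h2 := G.invT_le v
    have h3 : ∑ i, ∑ j, G.ord v i * ((realM P)⁻¹) i j * G.ord v j ≤ F / d * G.ldT v ^ 2 := by
      rw [div_mul_eq_mul_div, le_div_iff₀ (by linarith : (0 : ℝ) < d), mul_comm]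
      exact h1
    linarith
  have hc0 : 0 < 1 / 4 + F / d := by
    have : 0 < F / d := div_pos hFpos (by linarith)
    linarith
  have hvol : ((1 / 4 + F / d) * G.ldT v ^ 2)⁻¹ ≤ G.vol v := by
    have h := inv_anti₀ (inv_pos.mpr hv) hinv
    rwa [inv_inv] at h
  have hld2 : ((N * d)⁻¹ * G.ldT v) ^ 2 ≤ G.ld v ^ 2 :=
    pow_le_pow_left₀ (by positivity) (hld v) 2
  have hmain : ((N * d)⁻¹ * G.ldT v) ^ 2 * ((1 / 4 + F / d) * G.ldT v ^ 2)⁻¹ ≤
      G.ld v ^ 2 * G.vol v :=
    mul_le_mul hld2 hvol (by positivity) (by positivity)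
  refine le_trans ?_ hmain
  have e1 : ((N * d)⁻¹ * G.ldT v) ^ 2 * ((1 / 4 + F / d) * G.ldT v ^ 2)⁻¹ =
      ((N : ℝ) ^ 2)⁻¹ * (d ^ 2 / 4 + d * F)⁻¹ := by
    have hd0 : d ≠ 0 := by linarith
    field_simp
  rw [e1]
  have e2 : bound N ε (Fintype.card G.Curve) = ((N : ℝ) ^ 2)⁻¹ * (5 / 4 * F ^ 2)⁻¹ := by
    unfold bound
    rw [hF, ha, mul_pow, ← pow_mul, mul_comm (Fintype.card G.Curve) 2, div_pow 2 ε, div_pow ε 2]
    have h2 : (((Fintype.card G.Curve).factorial : ℕ) : ℝ) ≠ 0 := by
      exact_mod_cast (Fintype.card G.Curve).factorial_ne_zero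
    have h3 : ε ^ (2 * Fintype.card G.Curve) ≠ 0 := pow_ne_zero _ hε.ne'
    field_simp
  rw [e2]
  refine mul_le_mul_of_nonneg_left ?_ (by positivity)
  refine inv_anti₀ (by nlinarith) ?_
  have h1 : d ^ 2 ≤ F ^ 2 := pow_le_pow_left₀ (by linarith) hdF 2
  have h2 : d * F ≤ F * F := mul_le_mul_of_nonneg_right hdF hFpos.le
  nlinarith

end germ

theorem coef_le (P : KltPair) (φ : P.Map) (y : P.Point φ) (i : (P.germ φ y).Curve) :
    P.eps ≤ 1 - (P.germ φ y).coef i := by
  rw [← P.toDiv_ld φ y i]
  exact (P.eps_le _).trans (P.nonneg φ _)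

/-- The prime divisors over `X` of log discrepancy at most one which are exceptional over `X'`. -/
def lowSet (P : KltPair) (φ : P.Map) : Set P.Div :=
  {D | D ∉ P.onX ∧ P.ld D ≤ 1} ∪ (P.exc φ ∩ P.onX)

theorem lowSet_finite (P : KltPair) (φ : P.Map) : (lowSet P φ).Finite :=
  P.low_finite.union (P.contracted φ).1

theorem lowSet_ncard (P : KltPair) (φ : P.Map) : (lowSet P φ).ncard ≤ P.R :=
  (Set.ncard_union_le _ _).trans (Nat.add_le_add_left (P.contracted φ).2 _)

theorem toDiv_mem (P : KltPair) (φ : P.Map) (y : P.Point φ) (i : (P.germ φ y).Curve) :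
    P.toDiv φ y i ∈ lowSet P φ := by
  by_cases h : P.toDiv φ y i ∈ P.onX
  · exact Or.inr ⟨P.toDiv_exc φ y i, h⟩
  · refine Or.inl ⟨h, ?_⟩
    have h1 := P.nonneg φ (P.toDiv φ y i)
    rw [P.toDiv_ld φ y i] at h1
    linarith [(P.germ φ y).coef_nonneg i]

theorem card_le (P : KltPair) (φ : P.Map) (y : P.Point φ) :
    Fintype.card (P.germ φ y).Curve ≤ 2 * (⌊4 / P.eps ^ 2⌋₊ + 1) ^ P.R := by
  rcases isEmpty_or_nonempty (P.germ φ y).Curve with h | h
  · rw [Fintype.card_eq_zero]
    exact Nat.zero_le _
  · have ht := (P.germ φ y).tree h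
    obtain ⟨O, h1, h2, h3⟩ := small_orbit _ ht
    refine (card_le_of_orbits (P.germ φ y).graph ht.1 O h1 h2 h3 (P.toDiv φ y)
      (P.conj φ y) (lowSet P φ) (lowSet_finite P φ) (toDiv_mem P φ y) ⌊4 / P.eps ^ 2⌋₊
      (valency_le _ P.eps_pos P.eps_le_one (coef_le P φ y))).trans ?_
    exact Nat.mul_le_mul_left _ (Nat.pow_le_pow_right (Nat.succ_pos _) (lowSet_ncard P φ))

theorem card_le_surface (P : KltPair) (hP : P.dim = 2) (φ : P.Map) (y : P.Point φ) :
    Fintype.card (P.germ φ y).Curve ≤ P.R := by
  have h1 : (Set.range (P.toDiv φ y)).ncard = Fintype.card (P.germ φ y).Curve := by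
    rw [← Set.image_univ, Set.ncard_image_of_injective _ (P.surface hP φ y), Set.ncard_univ,
      Nat.card_eq_fintype_card]
  rw [← h1]
  refine (Set.ncard_le_ncard ?_ (lowSet_finite P φ)).trans (lowSet_ncard P φ)
  rintro _ ⟨i, rfl⟩
  exact toDiv_mem P φ y i

/-- The local volumes of the models of a klt pair at all points of codimension two, and at all
closed points outside a closed subset of codimension at least three of each model, are bounded below
by an explicit positive constant; for surfaces this is the positive answer to Q1. -/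
theorem result (P : KltPair) :
    (∀ r : ℕ, 0 < bound P.N P.eps r) ∧
    (∀ (φ : P.Map) (y : P.Point φ),
      bound P.N P.eps (2 * (⌊4 / P.eps ^ 2⌋₊ + 1) ^ P.R) ≤ P.lvol φ y) ∧
    (∀ (φ : P.Map) (x : P.GenPoint φ),
      (P.dim : ℝ) ^ P.dim / 4 * bound P.N P.eps (2 * (⌊4 / P.eps ^ 2⌋₊ + 1) ^ P.R) ≤
        P.gvol φ x) ∧
    (P.dim = 2 → ∀ (φ : P.Map) (y : P.Point φ), bound P.N P.eps P.R ≤ P.lvol φ y) := by
  have key : ∀ (φ : P.Map) (y : P.Point φ),
      bound P.N P.eps (2 * (⌊4 / P.eps ^ 2⌋₊ + 1) ^ P.R) ≤ (P.germ φ y).nvol := fun φ y =>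
    (bound_anti _ _ P.eps_pos P.eps_le_one (card_le P φ y)).trans
      (germ_bound _ P.N_pos P.eps_pos P.eps_le_one (coef_le P φ y))
  refine ⟨bound_pos P.N P.N_pos P.eps P.eps_pos, fun φ y => (key φ y).trans (P.nvol_le φ y),
    fun φ x => ?_, fun hP φ y => ?_⟩
  · obtain ⟨y, hy⟩ := P.gvol_ge φ x
    refine le_trans ?_ hy
    exact mul_le_mul_of_nonneg_left (key φ y) (by positivity)
  · refine le_trans ?_ (P.nvol_le φ y)
    refine le_trans ?_ (germ_bound _ P.N_pos P.eps_pos P.eps_le_one (coef_le P φ y))
    exact bound_anti _ _ P.eps_pos P.eps_le_one (card_le_surface P hP φ y)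

end Pool.Agent.Results.MP_c0c476_ag.CodimensionTwo
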