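import Mathlib

/-!
# MP_c0c476_ag: local volumes along the MMP: rays, products, covers

The uniform lower bound of Q1 for a klt pair `(X, Δ)` depends only on the ray spanned by `K + Δ`
modulo the classes pulled back from varieties without rational curves. In particular, if `X` has
one klt boundary `Δ₀` with `K + Δ₀ ≡ 0` for which Q1 holds, Q1 holds for every klt boundary of `X`.
The pairs satisfying Q1 are closed under products (one factor with `H¹(O) = 0`), quotients of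
finite crepant covers and nonnegative maps. As a consequence Q1 holds for every klt boundary on a
quasi-etale quotient of a product of log Calabi-Yau varieties with finitely many birational
contraction models (abelian varieties, K3 surfaces, log Calabi-Yau surfaces, symplectic varieties,
...).
-/

set_option autoImplicit false

namespace Pool.Agent.Results.MP_c0c476_ag.RaysAndProducts

/-- The normal projective varieties over `ℂ` of positive dimension, their valuations, klt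
boundaries, isomorphisms and birational contractions. -/
structure Theory where
  /-- the normal projective varieties of positive dimension -/
  Var : Type
  dim : Var → ℕ
  /-- the closed points -/
  Point : Var → Type
  /-- the prime divisors over `X` -/
  Val : Var → Type
  /-- the centre of `v` on `X` is the closed point `x` -/
  At : {X : Var} → Point X → Val X → Prop
  at_nonempty : ∀ {X : Var} (x : Point X), ∃ v, At x v
  /-- the volume of a prime divisor over `X` whose centre on `X` is a closed point -/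
  vol : {X : Var} → Val X → ℝ
  vol_nonneg : ∀ {X : Var} (v : Val X), 0 ≤ vol v
  /-- the effective `ℚ`-divisors `Δ` such that `(X, Δ)` is klt -/
  Bd : Var → Type
  /-- the log discrepancy of `v` with respect to `(X, Δ)` -/
  ld : {X : Var} → Bd X → Val X → ℝ
  ld_pos : ∀ {X : Var} (Δ : Bd X) (v : Val X), 0 < ld Δ v
  /-- the isomorphisms `X → Y`, which act on points, valuations and klt boundaries -/
  Iso : Var → Var → Type
  isoPt : {X Y : Var} → Iso X Y → Point X ≃ Point Y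
  isoVal : {X Y : Var} → Iso X Y → Val X ≃ Val Y
  isoBd : {X Y : Var} → Iso X Y → Bd X → Bd Y
  iso_dim : ∀ {X Y : Var}, Iso X Y → dim Y = dim X
  iso_at : ∀ {X Y : Var} (i : Iso X Y) (x : Point X) (v : Val X),
    At (isoPt i x) (isoVal i v) ↔ At x v
  iso_vol : ∀ {X Y : Var} (i : Iso X Y) (v : Val X), vol (isoVal i v) = vol v
  iso_ld : ∀ {X Y : Var} (i : Iso X Y) (Δ : Bd X) (v : Val X),
    ld (isoBd i Δ) (isoVal i v) = ld Δ v
  /-- the birational contractions: the birational maps `φ : X ⇢ X'` such that `φ⁻¹` contracts no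
  divisor -/
  Map : Var → Var → Type
  map_dim : ∀ {X X' : Var}, Map X X' → dim X' = dim X
  /-- the prime divisors over `X` and over `X'` are the same -/
  val : {X X' : Var} → Map X X' → Val X ≃ Val X'
  /-- `Δ' = φ_* Δ` -/
  IsPush : {X X' : Var} → Map X X' → Bd X → Bd X' → Prop
  /-- composition of birational contractions -/
  comp : {X X' X'' : Var} → Map X X' → Map X' X'' → Map X X''
  val_comp : ∀ {X X' X'' : Var} (φ : Map X X') (ψ : Map X' X'') (v : Val X),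
    val (comp φ ψ) v = val ψ (val φ v)
  push_comp : ∀ {X X' X'' : Var} (φ : Map X X') (ψ : Map X' X'') (Δ : Bd X) (Δ' : Bd X')
    (Δ'' : Bd X''), IsPush φ Δ Δ' → IsPush ψ Δ' Δ'' → IsPush (comp φ ψ) Δ Δ''

namespace Theory

variable (T : Theory)

/-- The normalized volume of `(X, Δ)` at `x`: the infimum of `A(v)^n vol(v)` over the prime divisors
`v` centred at `x`. -/
noncomputable def lvol {X : T.Var} (Δ : T.Bd X) (x : T.Point X) : ℝ :=
  ⨅ v : {v : T.Val X // T.At x v}, T.ld Δ v.1 ^ T.dim X * T.vol v.1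

/-- `φ` is a `(K + Δ)`-nonnegative birational map from `(X, Δ)` to `(X', Δ')`. -/
def Nonneg {X X' : T.Var} (φ : T.Map X X') (Δ : T.Bd X) (Δ' : T.Bd X') : Prop :=
  T.IsPush φ Δ Δ' ∧ ∀ v, T.ld Δ v ≤ T.ld Δ' (T.val φ v)

/-- The assertion of Q1 for `(X, Δ)`. -/
def Bounded {X : T.Var} (Δ : T.Bd X) : Prop :=
  ∃ ε : ℝ, 0 < ε ∧ ∀ (X' : T.Var) (φ : T.Map X X') (Δ' : T.Bd X'), T.Nonneg φ Δ Δ' →
    ∀ x : T.Point X', ε ≤ T.lvol Δ' x

/-- Up to isomorphism `(X, Δ)` has only finitely many models under nonnegative maps. -/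
def Few {X : T.Var} (Δ : T.Bd X) : Prop :=
  ∃ L : List (Σ Z : T.Var, T.Bd Z), ∀ (X' : T.Var) (φ : T.Map X X') (Δ' : T.Bd X'),
    T.Nonneg φ Δ Δ' → ∃ P ∈ L, ∃ i : T.Iso P.1 X', T.isoBd i P.2 = Δ'

end Theory

/-- Divisor classes. -/
structure Classes (T : Theory) where
  /-- the `ℝ`-Cartier `ℝ`-divisors up to `ℝ`-linear equivalence -/
  Cl : T.Var → Type
  [acg : ∀ X, AddCommGroup (Cl X)]
  [mod : ∀ X, Module ℝ (Cl X)]
  /-- the class of `K_X + Δ` -/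
  cls : {X : T.Var} → T.Bd X → Cl X
  /-- the classes `L` such that `φ_* L` is `ℝ`-Cartier -/
  cart : {X X' : T.Var} → T.Map X X' → Submodule ℝ (Cl X)
  /-- `diff φ L v` is the coefficient at `v` of `q^* φ_* L - p^* L` (`p`, `q` a common resolution) -/
  diff : {X X' : T.Var} → (φ : T.Map X X') → cart φ →ₗ[ℝ] (T.Val X → ℝ)
  push_ld : ∀ {X X' : T.Var} (φ : T.Map X X') (Δ : T.Bd X) (Δ' : T.Bd X'), T.IsPush φ Δ Δ' →
    ∃ h : cls Δ ∈ cart φ, ∀ v, T.ld Δ' (T.val φ v) = T.ld Δ v - diff φ ⟨cls Δ, h⟩ v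
  /-- `φ_* Δ` is a klt boundary if `K + φ_* Δ` is `ℝ`-Cartier and the log discrepancies are
  positive -/
  push_ex : ∀ {X X' : T.Var} (φ : T.Map X X') (Δ : T.Bd X) (h : cls Δ ∈ cart φ),
    (∀ v, 0 < T.ld Δ v - diff φ ⟨cls Δ, h⟩ v) → ∃ Δ' : T.Bd X', T.IsPush φ Δ Δ'
  /-- the classes pulled back from projective varieties without rational curves -/
  fixed : (X : T.Var) → Submodule ℝ (Cl X)
  /-- if `X'` has a klt boundary, `φ` maps pull-backs from varieties without rational curves to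
  pull-backs (Hacon, McKernan: the fibres of a resolution of `X'` are rationally chain
  connected) -/
  fixed_cart : ∀ {X X' : T.Var} (φ : T.Map X X'), T.Bd X' → ∀ f ∈ fixed X, f ∈ cart φ
  fixed_diff : ∀ {X X' : T.Var} (φ : T.Map X X'), T.Bd X' → ∀ (f : Cl X), f ∈ fixed X →
    ∀ h : f ∈ cart φ, diff φ ⟨f, h⟩ = 0
  /-- log resolution `g : W → X` of two klt pairs: `a` is the log discrepancy of the smooth variety
  `W`, `o i` the order of vanishing along the components of a simple normal crossing divisor,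
  `K_W + ∑ d_i E_i = g^* (K + Δ)`, `K_W + ∑ d'_i E_i = g^* (K + Δ₀)` -/
  resolution : ∀ {X : T.Var} (Δ Δ₀ : T.Bd X), ∃ (m : ℕ) (a : T.Val X → ℝ)
    (o : Fin m → T.Val X → ℝ) (d d' : Fin m → ℝ), (∀ i, d i < 1) ∧ (∀ i v, 0 ≤ o i v) ∧
      (∀ v, ∑ i, o i v ≤ a v) ∧ (∀ v, T.ld Δ v = a v - ∑ i, d i * o i v) ∧
      ∀ v, T.ld Δ₀ v = a v - ∑ i, d' i * o i v

attribute [instance] Classes.acg Classes.mod

/-- Products of varieties. -/
structure Products (T : Theory) where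
  prod : T.Var → T.Var → T.Var
  /-- a resolution of `X` has irregularity `0` (`H¹(X, O_X) = 0` if `X` has a klt boundary) -/
  NoIrr : T.Var → Prop
  pair : {X Y : T.Var} → T.Point X → T.Point Y → T.Point (prod X Y)
  pair_surj : ∀ {X Y : T.Var} (z : T.Point (prod X Y)), ∃ x y, z = pair x y
  /-- the boundary `Δ × Y + X × Θ` -/
  prodBd : {X Y : T.Var} → T.Bd X → T.Bd Y → T.Bd (prod X Y)
  /-- the prime divisor `v × Y` over `X × Y` -/
  fst : {X Y : T.Var} → T.Val X → T.Val (prod X Y)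
  /-- the prime divisor `X × w` over `X × Y` -/
  snd : {X Y : T.Var} → T.Val Y → T.Val (prod X Y)
  ld_fst : ∀ {X Y : T.Var} (Δ : T.Bd X) (Θ : T.Bd Y) (v : T.Val X),
    T.ld (prodBd Δ Θ) (fst v) = T.ld Δ v
  ld_snd : ∀ {X Y : T.Var} (Δ : T.Bd X) (Θ : T.Bd Y) (w : T.Val Y),
    T.ld (prodBd Δ Θ) (snd w) = T.ld Θ w
  prodMap : {X X' Y Y' : T.Var} → T.Map X X' → T.Map Y Y' → T.Map (prod X Y) (prod X' Y')
  val_fst : ∀ {X X' Y Y' : T.Var} (φ : T.Map X X') (ψ : T.Map Y Y') (v : T.Val X),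
    T.val (prodMap φ ψ) (fst v) = fst (T.val φ v)
  val_snd : ∀ {X X' Y Y' : T.Var} (φ : T.Map X X') (ψ : T.Map Y Y') (w : T.Val Y),
    T.val (prodMap φ ψ) (snd w) = snd (T.val ψ w)
  /-- a klt boundary `φ_* Δ × Y' + X' × ψ_* Θ` comes from klt boundaries on the factors -/
  push_prod : ∀ {X X' Y Y' : T.Var} (φ : T.Map X X') (ψ : T.Map Y Y') (Δ : T.Bd X) (Θ : T.Bd Y)
    (Λ : T.Bd (prod X' Y')), T.IsPush (prodMap φ ψ) (prodBd Δ Θ) Λ →
      ∃ (Δ' : T.Bd X') (Θ' : T.Bd Y'), T.IsPush φ Δ Δ' ∧ T.IsPush ψ Θ Θ' ∧ Λ = prodBd Δ' Θ'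
  /-- the Weil divisor classes -/
  W : T.Var → Type
  /-- the class of `D₁ × Y + X × D₂` -/
  box : {X Y : T.Var} → W X → W Y → W (prod X Y)
  /-- `Cl (X × Y) = Cl X + Cl Y` if `Y` has no irregularity -/
  box_surj : ∀ {X Y : T.Var}, NoIrr Y → ∀ D : W (prod X Y), ∃ D₁ D₂, D = box D₁ D₂
  /-- a positive multiple of `D` is the transform of an ample class of `X'`: `φ` is the natural map
  from `X` to `Proj` of the ring of sections of `D` -/
  Gives : {X X' : T.Var} → T.Map X X' → W X → Prop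
  gives_ex : ∀ {X X' : T.Var} (φ : T.Map X X'), ∃ D, Gives φ D
  gives_unique : ∀ {X Z Z' : T.Var} (φ : T.Map X Z) (ψ : T.Map X Z') (D : W X), Gives φ D →
    Gives ψ D → ∃ i : T.Iso Z Z', (∀ v, T.isoVal i (T.val φ v) = T.val ψ v) ∧
      ∀ (Δ : T.Bd X) (Δ' : T.Bd Z), T.IsPush φ Δ Δ' → T.IsPush ψ Δ (T.isoBd i Δ')
  /-- the ring of sections of `box D₁ D₂` is the Segre product of the rings of sections of `D₁` and
  `D₂` (Künneth formula); they are finitely generated if it is -/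
  gives_box : ∀ {X Y Z : T.Var} (φ : T.Map (prod X Y) Z) (D₁ : W X) (D₂ : W Y),
    Gives φ (box D₁ D₂) → ∃ (X' Y' : T.Var) (φ₁ : T.Map X X') (φ₂ : T.Map Y Y'),
      Gives φ₁ D₁ ∧ Gives φ₂ D₂
  box_gives : ∀ {X X' Y Y' : T.Var} (φ₁ : T.Map X X') (φ₂ : T.Map Y Y') (D₁ : W X) (D₂ : W Y),
    Gives φ₁ D₁ → Gives φ₂ D₂ → Gives (prodMap φ₁ φ₂) (box D₁ D₂)
  dim_pos : ∀ X : T.Var, 0 < T.dim X
  /-- the product formula (Zhuang) -/
  lvol_prod : ∀ {X Y : T.Var} (Δ : T.Bd X) (Θ : T.Bd Y) (x : T.Point X) (y : T.Point Y),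
    (T.dim X : ℝ) ^ T.dim X * (T.dim Y : ℝ) ^ T.dim Y * T.lvol (prodBd Δ Θ) (pair x y) =
      ((T.dim X : ℝ) + T.dim Y) ^ (T.dim X + T.dim Y) * (T.lvol Δ x * T.lvol Θ y)

/-- Finite covers. -/
structure Covers (T : Theory) where
  /-- the finite surjective morphisms `f : Y → X` -/
  Cover : T.Var → T.Var → Type
  deg : {Y X : T.Var} → Cover Y X → ℕ
  deg_pos : ∀ {Y X : T.Var} (f : Cover Y X), 0 < deg f
  /-- the restriction of a prime divisor over `Y` to the function field of `X` -/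
  restr : {Y X : T.Var} → Cover Y X → T.Val Y → T.Val X
  /-- the ramification index -/
  ram : {Y X : T.Var} → Cover Y X → T.Val Y → ℝ
  ram_nonneg : ∀ {Y X : T.Var} (f : Cover Y X) (w : T.Val Y), 0 ≤ ram f w
  /-- `K_Y + Θ = f^* (K_X + Δ)` -/
  Crepant : {Y X : T.Var} → Cover Y X → T.Bd Y → T.Bd X → Prop
  crepant_ld : ∀ {Y X : T.Var} (f : Cover Y X) (Θ : T.Bd Y) (Δ : T.Bd X), Crepant f Θ Δ →
    ∀ w, T.ld Θ w = ram f w * T.ld Δ (restr f w)
  /-- `Y'` is the normalization of `X'` in the function field of `Y` -/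
  lift : ∀ {Y X X' : T.Var} (f : Cover Y X) (φ : T.Map X X'),
    ∃ (Y' : T.Var) (ψ : T.Map Y Y') (f' : Cover Y' X'), deg f' = deg f ∧
      (∀ w, restr f' (T.val ψ w) = T.val φ (restr f w)) ∧ (∀ w, ram f' (T.val ψ w) = ram f w) ∧
      ∀ (Θ : T.Bd Y) (Δ : T.Bd X) (Δ' : T.Bd X'), Crepant f Θ Δ → T.IsPush φ Δ Δ' →
        ∃ Θ' : T.Bd Y', T.IsPush ψ Θ Θ' ∧ Crepant f' Θ' Δ'
  /-- volumes under crepant covers -/
  vol_le : ∀ {Y X : T.Var} (f : Cover Y X) (Θ : T.Bd Y) (Δ : T.Bd X), Crepant f Θ Δ →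
    ∀ x : T.Point X, ∃ y : T.Point Y, T.lvol Θ y ≤ deg f * T.lvol Δ x
  /-- `f` is etale in codimension one -/
  QuasiEtale : {Y X : T.Var} → Cover Y X → Prop
  /-- the pull-back of a klt boundary -/
  pull : ∀ {Y X : T.Var} (f : Cover Y X), QuasiEtale f → ∀ Δ : T.Bd X, ∃ Θ : T.Bd Y,
    Crepant f Θ Δ

/-- The facts about klt pairs which are used. -/
structure Facts (T : Theory) where
  C : Classes T
  P : Products T
  F : Covers T
  /-- the local volumes of one klt pair are bounded below by a positive number -/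
  lvol_pos : ∀ {X : T.Var} (Δ : T.Bd X), ∃ ε : ℝ, 0 < ε ∧ ∀ x : T.Point X, ε ≤ T.lvol Δ x

/-- The pairs generated by a set `K` of pairs and by the pairs with finitely many models (`few`)
under the rules
* `ray`: moving `K + Δ` in its ray modulo pull-backs from varieties without rational curves;
* `prod`: products with one factor without irregularity;
* `cover`: a pair which has a finite crepant cover in the class is in the class;
* `map`: nonnegative maps;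
* `quotient`: if `Y → X` is finite and etale in codimension one and `Y` has one klt boundary `Θ₀`
  in the class with `K + Θ₀` pulled back from a variety without rational curves (for example
  numerically trivial), then `(X, Δ)` is in the class for every klt boundary `Δ`. -/
inductive Gen {T : Theory} (S : Facts T) (K : (X : T.Var) → T.Bd X → Prop) :
    (X : T.Var) → T.Bd X → Prop
  | base {X : T.Var} (Δ : T.Bd X) : K X Δ → Gen S K X Δ
  | few {X : T.Var} (Δ : T.Bd X) : T.Few Δ → Gen S K X Δ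
  | ray {X : T.Var} (Δ Δ₀ : T.Bd X) (r : ℝ) : 0 ≤ r →
      S.C.cls Δ₀ - r • S.C.cls Δ ∈ S.C.fixed X → Gen S K X Δ₀ → Gen S K X Δ
  | prod {X Y : T.Var} (Δ : T.Bd X) (Θ : T.Bd Y) : S.P.NoIrr Y → Gen S K X Δ → Gen S K Y Θ →
      Gen S K (S.P.prod X Y) (S.P.prodBd Δ Θ)
  | cover {Y X : T.Var} (f : S.F.Cover Y X) (Θ : T.Bd Y) (Δ : T.Bd X) : S.F.Crepant f Θ Δ →
      Gen S K Y Θ → Gen S K X Δ
  | map {X X' : T.Var} (φ : T.Map X X') (Δ : T.Bd X) (Δ' : T.Bd X') : T.Nonneg φ Δ Δ' →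
      Gen S K X Δ → Gen S K X' Δ'
  | quotient {Y X : T.Var} (f : S.F.Cover Y X) (Θ₀ : T.Bd Y) (Δ : T.Bd X) : S.F.QuasiEtale f →
      S.C.cls Θ₀ ∈ S.C.fixed Y → Gen S K Y Θ₀ → Gen S K X Δ

namespace Theory

variable (T : Theory)

theorem lvol_bdd {X : T.Var} (Δ : T.Bd X) (x : T.Point X) :
    BddBelow (Set.range fun v : {v : T.Val X // T.At x v} =>
      T.ld Δ v.1 ^ T.dim X * T.vol v.1) := by
  refine ⟨0, ?_⟩
  rintro _ ⟨v, rfl⟩
  exact mul_nonneg (pow_nonneg (T.ld_pos Δ v.1).le _) (T.vol_nonneg v.1)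

theorem lvol_nonneg {X : T.Var} (Δ : T.Bd X) (x : T.Point X) : 0 ≤ T.lvol Δ x := by
  obtain ⟨v, hv⟩ := T.at_nonempty x
  have : Nonempty {v : T.Val X // T.At x v} := ⟨⟨v, hv⟩⟩
  exact le_ciInf fun v => mul_nonneg (pow_nonneg (T.ld_pos Δ v.1).le _) (T.vol_nonneg v.1)

/-- comparison of the local volumes of two boundaries -/
theorem lvol_compare {X : T.Var} (Δ Δ₀ : T.Bd X) (c : ℝ) (hc : 0 < c)
    (h : ∀ v, c * T.ld Δ₀ v ≤ T.ld Δ v) (x : T.Point X) :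
    c ^ T.dim X * T.lvol Δ₀ x ≤ T.lvol Δ x := by
  obtain ⟨v, hv⟩ := T.at_nonempty x
  have : Nonempty {v : T.Val X // T.At x v} := ⟨⟨v, hv⟩⟩
  refine le_ciInf fun v => ?_
  have h1 : T.lvol Δ₀ x ≤ T.ld Δ₀ v.1 ^ T.dim X * T.vol v.1 := ciInf_le (T.lvol_bdd Δ₀ x) v
  have h2 : (c * T.ld Δ₀ v.1) ^ T.dim X ≤ T.ld Δ v.1 ^ T.dim X :=
    pow_le_pow_left₀ (mul_nonneg hc.le (T.ld_pos Δ₀ v.1).le) (h v.1) _
  calc c ^ T.dim X * T.lvol Δ₀ x
      ≤ c ^ T.dim X * (T.ld Δ₀ v.1 ^ T.dim X * T.vol v.1) :=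
        mul_le_mul_of_nonneg_left h1 (pow_nonneg hc.le _)
    _ = (c * T.ld Δ₀ v.1) ^ T.dim X * T.vol v.1 := by rw [mul_pow]; ring
    _ ≤ T.ld Δ v.1 ^ T.dim X * T.vol v.1 := mul_le_mul_of_nonneg_right h2 (T.vol_nonneg v.1)

theorem lvol_iso {X Y : T.Var} (i : T.Iso X Y) (Δ : T.Bd X) (x : T.Point X) :
    T.lvol (T.isoBd i Δ) (T.isoPt i x) = T.lvol Δ x := by
  apply le_antisymm
  · obtain ⟨v, hv⟩ := T.at_nonempty x
    have : Nonempty {v : T.Val X // T.At x v} := ⟨⟨v, hv⟩⟩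
    refine le_ciInf fun u => ?_
    have hw : T.At (T.isoPt i x) (T.isoVal i u.1) := (T.iso_at i x u.1).2 u.2
    have h1 : T.lvol (T.isoBd i Δ) (T.isoPt i x) ≤
        T.ld (T.isoBd i Δ) (T.isoVal i u.1) ^ T.dim Y * T.vol (T.isoVal i u.1) :=
      ciInf_le (T.lvol_bdd (T.isoBd i Δ) (T.isoPt i x)) ⟨_, hw⟩
    rwa [T.iso_ld, T.iso_vol, T.iso_dim i] at h1
  · obtain ⟨v, hv⟩ := T.at_nonempty (T.isoPt i x)
    have : Nonempty {v : T.Val Y // T.At (T.isoPt i x) v} := ⟨⟨v, hv⟩⟩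
    refine le_ciInf fun w => ?_
    obtain ⟨u, hu⟩ := (T.isoVal i).surjective w.1
    have hw : T.At x u := by
      rw [← T.iso_at i x u, hu]
      exact w.2
    have h1 : T.lvol Δ x ≤ T.ld Δ u ^ T.dim X * T.vol u := ciInf_le (T.lvol_bdd Δ x) ⟨u, hw⟩
    rw [← hu, T.iso_ld, T.iso_vol, T.iso_dim i]
    exact h1

theorem bounded_few (hp : ∀ {X : T.Var} (Δ : T.Bd X), ∃ ε : ℝ, 0 < ε ∧
    ∀ x : T.Point X, ε ≤ T.lvol Δ x) {X : T.Var} (Δ : T.Bd X) (h : T.Few Δ) : T.Bounded Δ := by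
  obtain ⟨L, hL⟩ := h
  have key : ∀ M : List (Σ Z : T.Var, T.Bd Z), ∃ ε : ℝ, 0 < ε ∧ ∀ P ∈ M, ∀ x : T.Point P.1,
      ε ≤ T.lvol P.2 x := by
    intro M
    induction M with
    | nil => exact ⟨1, one_pos, by simp⟩
    | cons Q M ih =>
      obtain ⟨ε, hε, h1⟩ := ih
      obtain ⟨δ, hδ, h2⟩ := hp Q.2
      refine ⟨min ε δ, lt_min hε hδ, ?_⟩
      intro P hP x
      rcases List.mem_cons.1 hP with rfl | hP
      · exact (min_le_right _ _).trans (h2 x)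
      · exact (min_le_left _ _).trans (h1 P hP x)
  obtain ⟨ε, hε, h1⟩ := key L
  refine ⟨ε, hε, fun X' φ Δ' hφ x => ?_⟩
  obtain ⟨P, hP, i, rfl⟩ := hL X' φ Δ' hφ
  obtain ⟨y, rfl⟩ := (T.isoPt i).surjective x
  exact (h1 P hP y).trans (T.lvol_iso i P.2 y).ge

theorem bounded_map {X X' : T.Var} (φ : T.Map X X') (Δ : T.Bd X) (Δ' : T.Bd X')
    (hφ : T.Nonneg φ Δ Δ') (h : T.Bounded Δ) : T.Bounded Δ' := by
  obtain ⟨ε, hε, h1⟩ := h
  refine ⟨ε, hε, fun X'' ψ Δ'' hψ x => h1 X'' (T.comp φ ψ) Δ'' ⟨?_, fun v => ?_⟩ x⟩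
  · exact T.push_comp φ ψ Δ Δ' Δ'' hφ.1 hψ.1
  · rw [T.val_comp]
    exact (hφ.2 v).trans (hψ.2 _)

end Theory

/-- the log discrepancies of two klt boundaries are comparable -/
theorem Classes.compare {T : Theory} (C : Classes T) {X : T.Var} (Δ Δ₀ : T.Bd X) :
    ∃ c : ℝ, 0 < c ∧ ∀ v, c * T.ld Δ₀ v ≤ T.ld Δ v := by
  obtain ⟨m, a, o, d, d', hd, ho, ha, h1, h2⟩ := C.resolution Δ Δ₀
  obtain ⟨B, hB⟩ := (Set.finite_range fun i => |1 - d' i| / (1 - d i)).bddAbove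
  set D : ℝ := max B 1 with hD
  have hD1 : 1 ≤ D := le_max_right _ _
  have hD0 : 0 < D := lt_of_lt_of_le one_pos hD1
  have hi : ∀ i, 1 - d' i ≤ D * (1 - d i) := by
    intro i
    have e1 : 0 < 1 - d i := by linarith [hd i]
    have e2 : |1 - d' i| / (1 - d i) ≤ B := hB ⟨i, rfl⟩
    have e3 : |1 - d' i| ≤ B * (1 - d i) := by rwa [div_le_iff₀ e1] at e2
    have e4 : B * (1 - d i) ≤ D * (1 - d i) := mul_le_mul_of_nonneg_right (le_max_left _ _) e1.le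
    exact (le_abs_self _).trans (e3.trans e4)
  refine ⟨1 / D, by positivity, fun v => ?_⟩
  rw [div_mul_eq_mul_div, one_mul, div_le_iff₀ hD0, h1, h2]
  have h3 : ∑ i, (1 - d' i) * o i v ≤ ∑ i, D * (1 - d i) * o i v :=
    Finset.sum_le_sum fun i _ => mul_le_mul_of_nonneg_right (hi i) (ho i v)
  have h4 : ∑ i, (1 - d' i) * o i v = ∑ i, o i v - ∑ i, d' i * o i v := by
    rw [← Finset.sum_sub_distrib]
    exact Finset.sum_congr rfl fun i _ => by ring
  have h5 : ∑ i, D * (1 - d i) * o i v = D * (∑ i, o i v - ∑ i, d i * o i v) := by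
    rw [← Finset.sum_sub_distrib, Finset.mul_sum]
    exact Finset.sum_congr rfl fun i _ => by ring
  have h6 : 0 ≤ (D - 1) * (a v - ∑ i, o i v) := mul_nonneg (by linarith) (by linarith [ha v])
  nlinarith [h3, h4, h5, h6]

theorem Classes.bounded_ray {T : Theory} (C : Classes T) {X : T.Var} (Δ Δ₀ : T.Bd X) (r : ℝ)
    (hr : 0 ≤ r) (hf : C.cls Δ₀ - r • C.cls Δ ∈ C.fixed X) (h : T.Bounded Δ₀) :
    T.Bounded Δ := by
  obtain ⟨ε, hε, h1⟩ := h
  obtain ⟨c, hc, h2⟩ := C.compare Δ Δ₀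
  set b : ℝ := min c (1 / (r + 1)) with hb
  have hb0 : 0 < b := lt_min hc (by positivity)
  have hbc : b ≤ c := min_le_left _ _
  have hbr : b * r ≤ 1 := by
    have e1 : b ≤ 1 / (r + 1) := min_le_right _ _
    rw [le_div_iff₀ (by linarith)] at e1
    nlinarith
  have key : ∀ (X' : T.Var) (φ : T.Map X X') (Δ' : T.Bd X'), T.Nonneg φ Δ Δ' →
      ∃ Δ₀' : T.Bd X', T.Nonneg φ Δ₀ Δ₀' ∧ ∀ v, b * T.ld Δ₀' v ≤ T.ld Δ' v := by
    intro X' φ Δ' hφ
    obtain ⟨hk, hk1⟩ := C.push_ld φ Δ Δ' hφ.1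
    have hfc := C.fixed_cart φ Δ' _ hf
    have h0 : C.cls Δ₀ ∈ C.cart φ := by
      have e := (C.cart φ).add_mem hfc ((C.cart φ).smul_mem r hk)
      rwa [sub_add_cancel] at e
    have hdiff : ∀ v, C.diff φ ⟨C.cls Δ₀, h0⟩ v = r * C.diff φ ⟨C.cls Δ, hk⟩ v := by
      intro v
      have e : (⟨C.cls Δ₀, h0⟩ : C.cart φ) =
          ⟨C.cls Δ₀ - r • C.cls Δ, hfc⟩ + r • ⟨C.cls Δ, hk⟩ := by
        apply Subtype.ext
        simp
      rw [e, map_add, map_smul, C.fixed_diff φ Δ' _ hf hfc, zero_add]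
      simp
    have hnn : ∀ v, C.diff φ ⟨C.cls Δ, hk⟩ v ≤ 0 := by
      intro v
      have := hφ.2 v
      rw [hk1 v] at this
      linarith
    obtain ⟨Δ₀', hp⟩ := C.push_ex φ Δ₀ h0 fun v => by
      rw [hdiff v]
      have e1 := T.ld_pos Δ₀ v
      have e2 := mul_nonneg hr (neg_nonneg.2 (hnn v))
      linarith
    obtain ⟨h0', hp1⟩ := C.push_ld φ Δ₀ Δ₀' hp
    refine ⟨Δ₀', ⟨hp, fun v => ?_⟩, fun w => ?_⟩
    · rw [hp1 v, hdiff v]
      have e2 := mul_nonneg hr (neg_nonneg.2 (hnn v))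
      linarith
    · obtain ⟨v, rfl⟩ := (T.val φ).surjective w
      rw [hp1 v, hk1 v, hdiff v]
      have e1 := h2 v
      have e3 := T.ld_pos Δ₀ v
      have e4 := hnn v
      have e5 : b * T.ld Δ₀ v ≤ c * T.ld Δ₀ v := mul_le_mul_of_nonneg_right hbc e3.le
      have e6 : 0 ≤ (1 - b * r) * (-C.diff φ ⟨C.cls Δ, hk⟩ v) :=
        mul_nonneg (by linarith) (by linarith)
      nlinarith
  refine ⟨b ^ T.dim X * ε, by positivity, fun X' φ Δ' hφ x => ?_⟩
  obtain ⟨Δ₀', hφ0, hle⟩ := key X' φ Δ' hφ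
  have e1 := T.lvol_compare Δ' Δ₀' b hb0 hle x
  rw [T.map_dim φ] at e1
  exact (mul_le_mul_of_nonneg_left (h1 X' φ Δ₀' hφ0 x) (by positivity)).trans e1

theorem Products.bounded_prod {T : Theory} (P : Products T) {X Y : T.Var} (Δ : T.Bd X)
    (Θ : T.Bd Y) (hY : P.NoIrr Y) (h : T.Bounded Δ) (h' : T.Bounded Θ) :
    T.Bounded (P.prodBd Δ Θ) := by
  obtain ⟨ε, hε, h1⟩ := h
  obtain ⟨δ, hδ, h2⟩ := h'
  refine ⟨ε * δ, mul_pos hε hδ, fun Z φ Λ hφ z => ?_⟩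
  obtain ⟨D, hD⟩ := P.gives_ex φ
  obtain ⟨D₁, D₂, rfl⟩ := P.box_surj hY D
  obtain ⟨X', Y', φ₁, φ₂, hD₁, hD₂⟩ := P.gives_box φ D₁ D₂ hD
  obtain ⟨i, hi, hp⟩ := P.gives_unique φ (P.prodMap φ₁ φ₂) _ hD (P.box_gives φ₁ φ₂ D₁ D₂ hD₁ hD₂)
  obtain ⟨Δ', Θ', hΔ, hΘ, he⟩ := P.push_prod φ₁ φ₂ Δ Θ _ (hp _ _ hφ.1)
  have hld : ∀ v, T.ld (P.prodBd Δ Θ) v ≤
      T.ld (P.prodBd Δ' Θ') (T.val (P.prodMap φ₁ φ₂) v) := by
    intro v
    rw [← he, ← hi, T.iso_ld]
    exact hφ.2 v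
  have hn₁ : T.Nonneg φ₁ Δ Δ' := by
    refine ⟨hΔ, fun v => ?_⟩
    have e := hld (P.fst v)
    rwa [P.ld_fst, P.val_fst, P.ld_fst] at e
  have hn₂ : T.Nonneg φ₂ Θ Θ' := by
    refine ⟨hΘ, fun w => ?_⟩
    have e := hld (P.snd w)
    rwa [P.ld_snd, P.val_snd, P.ld_snd] at e
  obtain ⟨x, y, hxy⟩ := P.pair_surj (T.isoPt i z)
  have e1 := T.lvol_iso i Λ z
  rw [he, hxy] at e1
  have e2 := P.lvol_prod Δ' Θ' x y
  have e3 := h1 X' φ₁ Δ' hn₁ x
  have e4 := h2 Y' φ₂ Θ' hn₂ y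
  have e5 : ε * δ ≤ T.lvol Δ' x * T.lvol Θ' y :=
    mul_le_mul e3 e4 hδ.le (T.lvol_nonneg Δ' x)
  refine e5.trans ?_
  rw [← e1]
  have hm : (0 : ℝ) < T.dim X' := by exact_mod_cast P.dim_pos X'
  have hn : (0 : ℝ) < T.dim Y' := by exact_mod_cast P.dim_pos Y'
  have hq : (0 : ℝ) < (T.dim X' : ℝ) ^ T.dim X' * (T.dim Y' : ℝ) ^ T.dim Y' := by positivity
  have e6 : (T.dim X' : ℝ) ^ T.dim X' * (T.dim Y' : ℝ) ^ T.dim Y' ≤
      ((T.dim X' : ℝ) + T.dim Y') ^ (T.dim X' + T.dim Y') := by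
    rw [pow_add]
    exact mul_le_mul (pow_le_pow_left₀ hm.le (by linarith) _)
      (pow_le_pow_left₀ hn.le (by linarith) _) (by positivity) (by positivity)
  have e7 : 0 ≤ T.lvol Δ' x * T.lvol Θ' y :=
    mul_nonneg (T.lvol_nonneg Δ' x) (T.lvol_nonneg Θ' y)
  have e8 := mul_le_mul_of_nonneg_right e6 e7
  rw [← e2] at e8
  exact le_of_mul_le_mul_left e8 hq

theorem Covers.bounded_cover {T : Theory} (F : Covers T) {Y X : T.Var} (f : F.Cover Y X)
    (Θ : T.Bd Y) (Δ : T.Bd X) (hf : F.Crepant f Θ Δ) (h : T.Bounded Θ) : T.Bounded Δ := by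
  obtain ⟨ε, hε, h1⟩ := h
  have hdeg : (0 : ℝ) < F.deg f := by exact_mod_cast F.deg_pos f
  refine ⟨ε / F.deg f, by positivity, fun X' φ Δ' hφ x => ?_⟩
  obtain ⟨Y', ψ, f', hd, hr, hm, hl⟩ := F.lift f φ
  obtain ⟨Θ', hp, hc⟩ := hl Θ Δ Δ' hf hφ.1
  have hn : T.Nonneg ψ Θ Θ' := by
    refine ⟨hp, fun w => ?_⟩
    rw [F.crepant_ld f Θ Δ hf w, F.crepant_ld f' Θ' Δ' hc, hm, hr]
    exact mul_le_mul_of_nonneg_left (hφ.2 _) (F.ram_nonneg f w)
  obtain ⟨y, hy⟩ := F.vol_le f' Θ' Δ' hc x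
  rw [div_le_iff₀ hdeg]
  have e := h1 Y' ψ Θ' hn y
  rw [hd] at hy
  linarith

/-- Every pair generated by pairs which satisfy Q1 and by pairs with finitely many models satisfies
Q1. -/
theorem result {T : Theory} (S : Facts T) (K : (X : T.Var) → T.Bd X → Prop)
    (hK : ∀ (X : T.Var) (Δ : T.Bd X), K X Δ → T.Bounded Δ) {X : T.Var} {Δ : T.Bd X}
    (h : Gen S K X Δ) : T.Bounded Δ := by
  induction h with
  | base Δ h => exact hK _ Δ h
  | few Δ h => exact T.bounded_few S.lvol_pos Δ h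
  | ray Δ Δ₀ r hr hf _ ih => exact S.C.bounded_ray Δ Δ₀ r hr hf ih
  | prod Δ Θ hY _ _ ih ih' => exact S.P.bounded_prod Δ Θ hY ih ih'
  | cover f Θ Δ hf _ ih => exact S.F.bounded_cover f Θ Δ hf ih
  | map φ Δ Δ' hφ _ ih => exact T.bounded_map φ Δ Δ' hφ ih
  | quotient f Θ₀ Δ hf hc _ ih =>
    obtain ⟨Θ, hΘ⟩ := S.F.pull f hf Δ
    refine S.F.bounded_cover f Θ Δ hΘ (S.C.bounded_ray Θ Θ₀ 0 le_rfl ?_ ih)
    rwa [zero_smul, sub_zero]

end Pool.Agent.Results.MP_c0c476_ag.RaysAndProducts
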