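import Pool.Agent.Work.MP_c0c476_t3.Main

/-!
# MP_c0c476_ag: local volumes along the MMPs of a terminal threefold

The structure `TerminalMMP` (a projective terminal threefold `X` and its `K_X`-MMPs) has the published facts which
are used as its fields, see `Pool/Agent/Work/MP_c0c476_t3/Main.lean`.
-/

set_option autoImplicit false

namespace Pool.Agent.Results.MP_c0c476_ag.TerminalThreefolds

open Pool.T3

/-- Let `X` be a projective terminal threefold and `N` the number of the divisors over `X` whose centre is a closed
point and whose discrepancy is at most one, plus `rho`. Every closed point of every end `M` of a finite sequence of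
steps of an MMP of `X` has normalized volume at least `27 / (8 (N + 4) ^ 3)`. -/
theorem result (W : TerminalMMP) (M : W.Model) (h : Relation.ReflTransGen W.Step W.X M) (x : W.Pt M) :
    27 / (8 * (({E | (∃ x : W.Pt W.X, W.cen W.X E x) ∧ W.a W.X E ≤ 1}.ncard + W.rho : ℕ) + 4 : ℝ) ^ 3) ≤
      W.lvol M x :=
  W.bound M h x

end Pool.Agent.Results.MP_c0c476_ag.TerminalThreefolds
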